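import Pool.Agent.Helper42.LS.Defs

/-!
# Band limited weights (helper54, MP_9a3c31_nt): definitions and module statements

Paper proofs: /team-store/h54_band.md
-/

namespace Pool.Agent.Helper54.LS

open Real Filter Topology Pool.Agent.Helper42.LS

/-- the weights `(1 - cos 2πbj)³ / j⁴` (zero for `j = 0`) -/
noncomputable def wt (b : ℝ) (j : ℕ) : ℝ := (1 - Real.cos (2 * π * (b * j))) ^ 3 / (j : ℝ) ^ 4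
/-- total weight -/
noncomputable def WW (b : ℝ) : ℝ := ∑' j : ℕ, wt b j
/-- second moment -/
noncomputable def VV (b : ℝ) : ℝ := ∑' j : ℕ, wt b j * (j : ℝ) ^ 2
/-- cosine transform -/
noncomputable def TT (b θ : ℝ) : ℝ := ∑' j : ℕ, wt b j * Real.cos (2 * π * (j * θ))

/-- K1: `T` vanishes away from the integers (sixth difference of the fourth Bernoulli polynomial) -/
def ST_K1 : Prop := ∀ b θ : ℝ, 0 < b → b ≤ 1 / 6 → 3 * b ≤ nd θ → TT b θ = 0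

/-- K2: sizes -/
def ST_K2 : Prop := ∃ c₁ c₂ : ℝ, 0 < c₁ ∧ 0 < c₂ ∧ ∀ b : ℝ, 0 < b → b ≤ 1 / 6 →
  Summable (wt b) ∧ Summable (fun j : ℕ => wt b j * (j : ℝ) ^ 2) ∧ c₁ * b ^ 3 ≤ WW b ∧
    VV b ≤ c₂ * b

/-- K3: no loss at rational angles with denominator `n ≤ 1/(3b)` -/
def ST_K3 : Prop := ∀ b : ℝ, 0 < b → b ≤ 1 / 6 → ∀ n : ℕ, 1 ≤ n → 3 * b * n ≤ 1 →
  ∀ α : ℝ, (∃ k : ℤ, (n : ℝ) * α = k) →
    WW b / (6 * (n : ℝ) ^ 2) ≤ ∑' j : ℕ, wt b j * B2 (j * α)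

/-- K4: almost no loss at one real angle, after a bounded change of scale -/
def ST_K4 : Prop := ∃ κ C : ℝ, 0 < κ ∧ κ < 1 ∧ 0 < C ∧ ∀ b : ℝ, 0 < b → b ≤ 1 / 6 → ∀ α : ℝ,
  ∃ b' : ℝ, (b' = b ∨ b' = κ * b) ∧ -(C * b * WW b') ≤ ∑' j : ℕ, wt b' j * B2 (j * α)

/-- T2: all denominators at most `A`, plus one real place (index `v₀`) of mass `w v₀` -/
def ST_T2 : Prop := ∀ C : ℝ, 0 < C → ∃ c C₁ : ℝ, 0 < c ∧ 0 < C₁ ∧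
  ∀ (V : Finset ℕ) (w t : ℕ → ℝ) (n : ℕ → ℕ) (v₀ : ℕ) (h A : ℝ), v₀ ∉ V →
    (∀ v ∈ insert v₀ V, 0 ≤ w v) → 0 ≤ h → 1 ≤ A →
    (∀ j : ℕ, 1 ≤ j → ∑ v ∈ insert v₀ V, w v * B2 (j * t v) - C ≤ h * (j : ℝ) ^ 2) →
    (∀ v ∈ V, 1 ≤ n v ∧ (n v : ℝ) ≤ A ∧ ∃ a : ℤ, (n v : ℝ) * t v = a) →
    C₁ * (1 + w v₀ / A) ≤ ∑ v ∈ V, w v / (n v : ℝ) ^ 2 →
    c * ∑ v ∈ V, w v / (n v : ℝ) ^ 2 ≤ h * A ^ 2

end Pool.Agent.Helper54.LS
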