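import Pool.Agent.Helper54.LS.Ker0

namespace Pool.Agent.Helper54.LS

open Real Filter Topology Pool.Agent.Helper42.LS

lemma nd_ge_of_rat (n : ℕ) (hn : 1 ≤ n) (x : ℝ) (k : ℤ) (hk : (n : ℝ) * x = k)
    (hx : ¬ ∃ m : ℤ, x = m) : 1 / (n : ℝ) ≤ nd x := by
  have hn' : (0 : ℝ) < n := by exact_mod_cast hn
  -- fract x = r / n with 0 < r < n
  have h1 : (n : ℝ) * Int.fract x = ((k - n * ⌊x⌋ : ℤ) : ℝ) := by
    unfold Int.fract
    push_cast
    rw [mul_sub, hk]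
  have h2 : 0 < Int.fract x := by
    rcases (Int.fract_nonneg x).lt_or_eq with h | h
    · exact h
    · exact absurd ⟨⌊x⌋, by have := Int.floor_add_fract x; rw [← h, add_zero] at this; exact this.symm⟩ hx
  have h3 : Int.fract x < 1 := Int.fract_lt_one x
  have h4 : (0 : ℝ) < ((k - n * ⌊x⌋ : ℤ) : ℝ) := by rw [← h1]; positivity
  have h5 : ((k - n * ⌊x⌋ : ℤ) : ℝ) < n := by
    rw [← h1]; nlinarith
  have h6 : (1 : ℤ) ≤ k - n * ⌊x⌋ := by
    have : (0 : ℤ) < k - n * ⌊x⌋ := by exact_mod_cast h4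
    omega
  have h7 : k - n * ⌊x⌋ ≤ (n : ℤ) - 1 := by
    have : k - n * ⌊x⌋ < (n : ℤ) := by exact_mod_cast h5
    omega
  have h6' : (1 : ℝ) ≤ ((k - n * ⌊x⌋ : ℤ) : ℝ) := by exact_mod_cast h6
  have h7' : ((k - n * ⌊x⌋ : ℤ) : ℝ) ≤ n - 1 := by exact_mod_cast h7
  rw [← h1] at h6' h7'
  unfold nd
  apply le_min
  · rw [div_le_iff₀ hn']; linarith
  · rw [div_le_iff₀ hn']; linarith

theorem st_K3 (hK1 : ST_K1) : ST_K3 := by
  intro b hb hb6 n hn hbn α hα
  rw [swap]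
  obtain ⟨a, ha⟩ := hα
  have hn' : (0 : ℝ) < n := by exact_mod_cast hn
  set f : ℕ → ℝ := fun k => 1 / (π ^ 2 * ((k : ℝ) + 1) ^ 2) * TT b (((k : ℝ) + 1) * α) with hf
  have hTT : ∀ k : ℕ, 0 ≤ TT b (((k : ℝ) + 1) * α) := by
    intro k
    by_cases h : ∃ m : ℤ, ((k : ℝ) + 1) * α = m
    · obtain ⟨m, hm⟩ := h
      rw [hm, TT_of_int]
      exact WW_nonneg b
    · have h1 : (n : ℝ) * (((k : ℝ) + 1) * α) = (((k : ℤ) + 1) * a : ℤ) := by
        push_cast
        rw [← ha]; ring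
      have h2 := nd_ge_of_rat n hn _ _ h1 h
      rw [hK1 b _ hb hb6 (le_trans _ h2)]
      rw [le_div_iff₀ hn']
      exact hbn
  have hf0 : ∀ k, 0 ≤ f k := fun k => mul_nonneg (by positivity) (hTT k)
  have hinj : Function.Injective (fun m : ℕ => n * (m + 1) - 1) := by
    intro m m' h
    simp only at h
    have h1 : 1 ≤ n * (m + 1) := Nat.one_le_iff_ne_zero.2 (by positivity)
    have h2 : 1 ≤ n * (m' + 1) := Nat.one_le_iff_ne_zero.2 (by positivity)
    have h3 : n * (m + 1) = n * (m' + 1) := by omega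
    have h4 := Nat.eq_of_mul_eq_mul_left (by omega) h3
    omega
  have hcomp : ∀ m : ℕ, f (n * (m + 1) - 1) =
      WW b / n ^ 2 * (1 / (π ^ 2 * ((m : ℝ) + 1) ^ 2)) := by
    intro m
    have h1 : 1 ≤ n * (m + 1) := Nat.one_le_iff_ne_zero.2 (by positivity)
    have h2 : (((n * (m + 1) - 1 : ℕ) : ℝ) + 1) = (n : ℝ) * ((m : ℝ) + 1) := by
      rw [Nat.cast_sub h1]; push_cast; ring
    simp only [hf]
    rw [h2]
    have h3 : (n : ℝ) * ((m : ℝ) + 1) * α = (((m : ℤ) + 1) * a : ℤ) := by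
      push_cast; rw [← ha]; ring
    rw [h3, TT_of_int]
    have := Real.pi_ne_zero
    have hm : ((m : ℝ) + 1) ≠ 0 := by positivity
    field_simp
  have hsum : ∑' m : ℕ, 1 / (π ^ 2 * ((m : ℝ) + 1) ^ 2) = 1 / 6 := by
    have h := B2_series 0
    have h0 : B2 0 = 1 / 6 := by simp [B2]
    rw [h0] at h
    rw [h]
    apply tsum_congr
    intro k
    simp
  calc WW b / (6 * (n : ℝ) ^ 2) = ∑' m : ℕ, f (n * (m + 1) - 1) := by
        rw [tsum_congr hcomp, tsum_mul_left, hsum]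
        field_simp
    _ ≤ ∑' k : ℕ, f k := by
        have hs : Summable f := summable_swap b α
        exact (hs.comp_injective hinj).tsum_le_tsum_of_inj (fun m : ℕ => n * (m + 1) - 1) hinj
          (fun k _ => hf0 k) (fun m => le_rfl) hs

end Pool.Agent.Helper54.LS
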