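import Pool.Agent.Helper54.LS.KerDefs
import Pool.Agent.Helper81.LS.FB

/-!
# Band limited weights: basic facts and the Fourier swap
-/

namespace Pool.Agent.Helper54.LS

open Real Filter Topology Pool.Agent.Helper42.LS

lemma wt_nonneg (b : ℝ) (j : ℕ) : 0 ≤ wt b j := by
  unfold wt
  have h := Real.cos_le_one (2 * π * (b * j))
  have h1 : 0 ≤ 1 - Real.cos (2 * π * (b * j)) := by linarith
  positivity

lemma wt_le (b : ℝ) (j : ℕ) : wt b j ≤ 8 / (j : ℝ) ^ 4 := by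
  unfold wt
  have h := Real.cos_le_one (2 * π * (b * j))
  have h' := Real.neg_one_le_cos (2 * π * (b * j))
  have h1 : 0 ≤ 1 - Real.cos (2 * π * (b * j)) := by linarith
  have h2 : 1 - Real.cos (2 * π * (b * j)) ≤ 2 := by linarith
  have h3 : (1 - Real.cos (2 * π * (b * j))) ^ 3 ≤ 2 ^ 3 := pow_le_pow_left₀ h1 h2 3
  have h4 : (0 : ℝ) ≤ (j : ℝ) ^ 4 := by positivity
  apply div_le_div_of_nonneg_right _ h4
  linarith

lemma summable_wt (b : ℝ) : Summable (wt b) := by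
  apply Summable.of_nonneg_of_le (wt_nonneg b) (wt_le b)
  exact (Real.summable_one_div_nat_pow.2 (by norm_num : 1 < 4)).mul_left 8 |>.congr
    (fun j => by rw [mul_one_div])

lemma summable_wt_sq (b : ℝ) : Summable (fun j : ℕ => wt b j * (j : ℝ) ^ 2) := by
  apply Summable.of_nonneg_of_le (fun j => mul_nonneg (wt_nonneg b j) (by positivity))
    (g := fun j : ℕ => wt b j * (j : ℝ) ^ 2) (f := fun j : ℕ => 8 * (1 / (j : ℝ) ^ 2))
  · intro j
    rcases Nat.eq_zero_or_pos j with hj | hj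
    · subst hj; simp
    · have hj' : (0 : ℝ) < (j : ℝ) := by exact_mod_cast hj
      calc wt b j * (j : ℝ) ^ 2 ≤ 8 / (j : ℝ) ^ 4 * (j : ℝ) ^ 2 := by
            gcongr; exact wt_le b j
        _ = 8 * (1 / (j : ℝ) ^ 2) := by field_simp
  · exact (Real.summable_one_div_nat_pow.2 (by norm_num : 1 < 2)).mul_left 8

lemma WW_nonneg (b : ℝ) : 0 ≤ WW b := tsum_nonneg (wt_nonneg b)

lemma VV_nonneg (b : ℝ) : 0 ≤ VV b :=
  tsum_nonneg (fun j => mul_nonneg (wt_nonneg b j) (by positivity))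

lemma summable_wt_mul (b : ℝ) (f : ℕ → ℝ) (hf : ∀ j, |f j| ≤ 1) :
    Summable (fun j => wt b j * f j) := by
  apply Summable.of_norm_bounded (summable_wt b)
  intro j
  rw [Real.norm_eq_abs, abs_mul, abs_of_nonneg (wt_nonneg b j)]
  exact mul_le_of_le_one_right (wt_nonneg b j) (hf j)

lemma abs_TT_le (b θ : ℝ) : |TT b θ| ≤ WW b := by
  unfold TT WW
  have h := summable_wt_mul b (fun j => Real.cos (2 * π * (j * θ))) (fun j => Real.abs_cos_le_one _)
  rw [← Real.norm_eq_abs]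
  refine (norm_tsum_le_tsum_norm ?_).trans ?_
  · exact h.norm
  · apply Summable.tsum_le_tsum _ h.norm (summable_wt b)
    intro j
    rw [Real.norm_eq_abs, abs_mul, abs_of_nonneg (wt_nonneg b j)]
    exact mul_le_of_le_one_right (wt_nonneg b j) (Real.abs_cos_le_one _)

lemma TT_of_int (b : ℝ) (m : ℤ) : TT b (m : ℝ) = WW b := by
  unfold TT WW
  apply tsum_congr
  intro j
  have : Real.cos (2 * π * ((j : ℝ) * (m : ℝ))) = 1 := by
    have := Real.cos_int_mul_two_pi ((j : ℤ) * m)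
    rw [← this]
    congr 1
    push_cast
    ring
  rw [this, mul_one]

lemma B2_abs_le (x : ℝ) : |B2 x| ≤ 1 / 6 := by
  unfold B2
  have h0 := Int.fract_nonneg x
  have h1 := (Int.fract_lt_one x).le
  rw [abs_le]
  constructor <;> nlinarith [sq_nonneg (Int.fract x - 1 / 2)]

lemma summable_inv_sq : Summable (fun k : ℕ => 1 / (π ^ 2 * ((k : ℝ) + 1) ^ 2)) := by
  have h := (summable_nat_add_iff 1).2 (Real.summable_one_div_nat_pow.2 (by norm_num : 1 < 2))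
  refine (h.mul_left (1 / π ^ 2)).congr (fun k => ?_)
  push_cast
  rw [one_div_mul_one_div]

/-- general term of the double series -/
noncomputable def gg (b α : ℝ) (j k : ℕ) : ℝ :=
  wt b j * (1 / (π ^ 2 * ((k : ℝ) + 1) ^ 2) * Real.cos (2 * π * (((k : ℝ) + 1) * ((j : ℝ) * α))))

lemma gg_le (b α : ℝ) (j k : ℕ) : |gg b α j k| ≤ wt b j * (1 / (π ^ 2 * ((k : ℝ) + 1) ^ 2)) := by
  unfold gg
  have h0 : (0 : ℝ) ≤ 1 / (π ^ 2 * ((k : ℝ) + 1) ^ 2) := by positivity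
  rw [abs_mul, abs_mul, abs_of_nonneg (wt_nonneg b j), abs_of_nonneg h0]
  exact mul_le_mul_of_nonneg_left (mul_le_of_le_one_right h0 (Real.abs_cos_le_one _))
    (wt_nonneg b j)

lemma summable_gg (b α : ℝ) : Summable (Function.uncurry (gg b α)) := by
  have hprod : Summable (fun q : ℕ × ℕ => wt b q.1 * (1 / (π ^ 2 * ((q.2 : ℝ) + 1) ^ 2))) :=
    (summable_wt b).mul_of_nonneg summable_inv_sq (fun j => wt_nonneg b j)
      (fun k => by positivity)
  exact Summable.of_norm_bounded hprod (fun q => gg_le b α q.1 q.2)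

lemma B2_series (x : ℝ) : B2 x = ∑' k : ℕ, 1 / (π ^ 2 * ((k : ℝ) + 1) ^ 2) *
      Real.cos (2 * π * (((k : ℝ) + 1) * x)) := by
  have h := (st_FB x).mul_left (1 / π ^ 2)
  have hpi := Real.pi_ne_zero
  have h2 : 1 / π ^ 2 * (π ^ 2 * B2 x) = B2 x := by field_simp
  rw [h2] at h
  rw [← h.tsum_eq]
  apply tsum_congr
  intro k
  have hk : ((k : ℝ) + 1) ≠ 0 := by positivity
  rw [show 2 * π * (((k : ℝ) + 1) * x) = 2 * π * ((k : ℝ) + 1) * x by ring]
  field_simp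

lemma tsum_gg_right (b α : ℝ) (j : ℕ) : ∑' k : ℕ, gg b α j k = wt b j * B2 (j * α) := by
  rw [B2_series, ← tsum_mul_left]
  rfl

lemma tsum_gg_left (b α : ℝ) (k : ℕ) : ∑' j : ℕ, gg b α j k =
    1 / (π ^ 2 * ((k : ℝ) + 1) ^ 2) * TT b (((k : ℝ) + 1) * α) := by
  unfold TT
  rw [← tsum_mul_left]
  apply tsum_congr
  intro j
  unfold gg
  rw [show ((k : ℝ) + 1) * ((j : ℝ) * α) = (j : ℝ) * (((k : ℝ) + 1) * α) by ring]
  ring

/-- the Fourier swap -/
lemma swap (b α : ℝ) : ∑' j : ℕ, wt b j * B2 (j * α) =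
    ∑' k : ℕ, 1 / (π ^ 2 * ((k : ℝ) + 1) ^ 2) * TT b (((k : ℝ) + 1) * α) := by
  have h := (summable_gg b α).tsum_comm
  have h1 : ∑' k : ℕ, ∑' j : ℕ, gg b α j k = ∑' j : ℕ, ∑' k : ℕ, gg b α j k := h
  rw [← tsum_congr (tsum_gg_right b α), ← tsum_congr (tsum_gg_left b α), h1]

lemma summable_swap (b α : ℝ) :
    Summable (fun k : ℕ => 1 / (π ^ 2 * ((k : ℝ) + 1) ^ 2) * TT b (((k : ℝ) + 1) * α)) := by
  have h := (summable_nat_add_iff 1).2 (Real.summable_one_div_nat_pow.2 (by norm_num : 1 < 2))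
  have h2 := h.mul_left (1 / π ^ 2 * WW b)
  apply Summable.of_norm_bounded h2
  intro k
  rw [Real.norm_eq_abs, abs_mul, abs_of_nonneg (by positivity : (0 : ℝ) ≤ 1 / (π ^ 2 * ((k : ℝ) + 1) ^ 2))]
  have h3 := abs_TT_le b (((k : ℝ) + 1) * α)
  calc 1 / (π ^ 2 * ((k : ℝ) + 1) ^ 2) * |TT b (((k : ℝ) + 1) * α)|
      ≤ 1 / (π ^ 2 * ((k : ℝ) + 1) ^ 2) * WW b := by gcongr
    _ = 1 / π ^ 2 * WW b * (1 / ((k + 1 : ℕ) : ℝ) ^ 2) := by
        push_cast
        field_simp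

end Pool.Agent.Helper54.LS
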