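import Pool.Agent.Helper54.LS.R2
import Pool.Agent.Helper54.LS.K3
import Pool.Agent.Helper18.LS.K1
import Pool.Agent.Helper18.LS.K2
import Pool.Agent.Helper55.LS.K4
import Pool.Agent.Helper42.LS.All

namespace Pool.Agent.Helper54.LS

open Pool.Agent.Helper42.LS

theorem all_K1 : ST_K1 := st_K1
theorem all_K2 : ST_K2 := st_K2
theorem all_K3 : ST_K3 := st_K3 all_K1
theorem all_K4 : ST_K4 := st_K4 all_K1 all_K2
theorem all_T2 : ST_T2 := st_T2 all_K1 all_K2 all_K4
theorem all_U : ST_U := st_U all_MT all_NC all_CB all_CK all_T2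

end Pool.Agent.Helper54.LS
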