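import Pool.Agent.Helper54.LS.T2
import Pool.Agent.Helper42.LS.FinB

/-!
# Unconditional lower bound with exponent 19/29 (sequence form)
-/

namespace Pool.Agent.Helper54.LS

open Real Filter Topology Pool.Agent.Helper42.LS

/-- statement for sequences -/
def ST_U : Prop := ∃ c : ℝ, 0 < c ∧ ∀ A B : ℤ, 4 * A ^ 3 + 27 * B ^ 2 ≠ 0 → QM A B →
  ∀ (x y : ℕ → ℚ) (e : ℝ), GSeq (0 : ℚ) (A : ℚ) (B : ℚ) x y → IsCan x e →
  c * HE A B ^ (-(19 / 29 : ℝ)) ≤ e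

/-- Hölder: `(∑ w)³ ≤ (∑ w n)² (∑ w / n²)` -/
lemma holder3 {P : Finset ℕ} {w : ℕ → ℝ} {n : ℕ → ℕ} (h0 : ∀ p ∈ P, 0 ≤ w p)
    (h1 : ∀ p ∈ P, 1 ≤ n p) :
    (∑ p ∈ P, w p) ^ 3 ≤ (∑ p ∈ P, w p * n p) ^ 2 * ∑ p ∈ P, w p / (n p : ℝ) ^ 2 := by
  -- Cauchy-Schwarz twice
  have hA0 : 0 ≤ ∑ p ∈ P, w p := Finset.sum_nonneg h0
  have hB0 : 0 ≤ ∑ p ∈ P, w p * n p :=
    Finset.sum_nonneg (fun p hp => mul_nonneg (h0 p hp) (Nat.cast_nonneg _))
  have hC0 : 0 ≤ ∑ p ∈ P, w p / n p :=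
    Finset.sum_nonneg (fun p hp => div_nonneg (h0 p hp) (Nat.cast_nonneg _))
  have hD0 : 0 ≤ ∑ p ∈ P, w p / (n p : ℝ) ^ 2 :=
    Finset.sum_nonneg (fun p hp => div_nonneg (h0 p hp) (by positivity))
  have hn : ∀ p ∈ P, (n p : ℝ) ≠ 0 := fun p hp => by have := h1 p hp; positivity
  -- A² ≤ B C
  have h3 : (∑ p ∈ P, w p) ^ 2 ≤ (∑ p ∈ P, w p * n p) * ∑ p ∈ P, w p / n p :=
    Finset.sum_sq_le_sum_mul_sum_of_sq_le_mul P (r := fun p => w p)
      (f := fun p => w p * n p) (g := fun p => w p / n p)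
      (fun p hp => mul_nonneg (h0 p hp) (Nat.cast_nonneg _))
      (fun p hp => div_nonneg (h0 p hp) (Nat.cast_nonneg _))
      (fun p hp => by
        have := hn p hp
        apply le_of_eq
        field_simp)
  -- C² ≤ A D
  have h4 : (∑ p ∈ P, w p / n p) ^ 2 ≤ (∑ p ∈ P, w p) * ∑ p ∈ P, w p / (n p : ℝ) ^ 2 :=
    Finset.sum_sq_le_sum_mul_sum_of_sq_le_mul P (r := fun p => w p / n p)
      (f := fun p => w p) (g := fun p => w p / (n p : ℝ) ^ 2) h0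
      (fun p hp => div_nonneg (h0 p hp) (by positivity))
      (fun p hp => by
        have := hn p hp
        apply le_of_eq
        field_simp)
  -- A⁴ ≤ B² C² ≤ B² A D
  rcases hA0.eq_or_lt with h | h
  · have h9 : (∑ p ∈ P, w p) ^ 3 = 0 := by rw [← h]; norm_num
    rw [h9]
    exact mul_nonneg (sq_nonneg _) hD0
  · have h5 : (∑ p ∈ P, w p) ^ 4 ≤ (∑ p ∈ P, w p * n p) ^ 2 *
        ((∑ p ∈ P, w p) * ∑ p ∈ P, w p / (n p : ℝ) ^ 2) := by
      calc (∑ p ∈ P, w p) ^ 4 = ((∑ p ∈ P, w p) ^ 2) ^ 2 := by ring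
        _ ≤ ((∑ p ∈ P, w p * n p) * ∑ p ∈ P, w p / n p) ^ 2 :=
          pow_le_pow_left₀ (by positivity) h3 2
        _ = (∑ p ∈ P, w p * n p) ^ 2 * (∑ p ∈ P, w p / n p) ^ 2 := by ring
        _ ≤ _ := mul_le_mul_of_nonneg_left h4 (by positivity)
    have h6 : (∑ p ∈ P, w p) * (∑ p ∈ P, w p) ^ 3 ≤ (∑ p ∈ P, w p) *
        ((∑ p ∈ P, w p * n p) ^ 2 * ∑ p ∈ P, w p / (n p : ℝ) ^ 2) := by
      calc (∑ p ∈ P, w p) * (∑ p ∈ P, w p) ^ 3 = (∑ p ∈ P, w p) ^ 4 := by ring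
        _ ≤ _ := h5
        _ = _ := by ring
    exact le_of_mul_le_mul_left h6 h

/-- every place is small: from the dominating place lemma -/
lemma place_small (hCK : ST_CK) {C₀ : ℝ} (hC₀ : 0 ≤ C₀) {A B : ℤ} {e : ℝ} {w t : ℕ → ℝ}
    {n : ℕ → ℕ} (h : MData C₀ A B e w t n) {v₀ : ℕ}
    (hv : v₀ ∈ insert 0 (4 * A ^ 3 + 27 * B ^ 2).natAbs.primeFactors)
    (hbig : 160 * C₀ ≤ w v₀) (hpos : 0 < w v₀) :
    (w v₀) ^ 3 ≤ 5184000 * e *
      (∑ v ∈ insert 0 (4 * A ^ 3 + 27 * B ^ 2).natAbs.primeFactors, w v) ^ 2 := by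
  set V := insert 0 (4 * A ^ 3 + 27 * B ^ 2).natAbs.primeFactors with hV
  set W := ∑ v ∈ V, w v with hW
  have hle : w v₀ ≤ W := Finset.single_le_sum h.1 hv
  have hW0 : 0 < W := lt_of_lt_of_le hpos hle
  have h1 := fin_CK hCK h (κ := w v₀ / W) (by positivity) (by rw [div_le_one hW0]; exact hle) hv
    (by rw [div_mul_cancel₀ _ hW0.ne']) (by rw [div_mul_cancel₀ _ hW0.ne']; exact hbig)
  rw [← hW] at h1
  have h2 : (w v₀ / W) ^ 3 * W / 5184000 = (w v₀) ^ 3 / W ^ 2 / 5184000 := by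
    field_simp
  rw [h2, div_le_iff₀ (by norm_num), div_le_iff₀ (by positivity)] at h1
  linarith

theorem st_U (hMT : ST_MT) (hNC : ST_NC) (hCB : ST_CB) (hCK : ST_CK) (hT2 : ST_T2) : ST_U := by
  obtain ⟨C₀, hC₀, hMT⟩ := hMT
  obtain ⟨cB, hcB, hB⟩ := fin_CB hCB
  obtain ⟨c₂, C₁, hc₂, hC₁, hT2⟩ := hT2 (C₀ + 1) (by linarith)
  have hl2 : 0 < Real.log 2 := Real.log_pos (by norm_num)
  have hl21 : Real.log 2 < 1 := by have := Real.log_two_lt_d9; linarith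
  -- numerical constants
  set l : ℝ := Real.log 2 with hl
  -- threshold for W
  set W₀ : ℝ := max 1 (max (4 * (C₀ + 1) * 160) ((C₀ / (cB * (l / 2) ^ (2 / 3 : ℝ))) ^ 3)) with hW₀
  have hW₀1 : 1 ≤ W₀ := le_max_left _ _
  have hW₀2 : 4 * (C₀ + 1) * 160 ≤ W₀ := le_trans (le_max_left _ _) (le_max_right _ _)
  have hW₀3 : (C₀ / (cB * (l / 2) ^ (2 / 3 : ℝ))) ^ 3 ≤ W₀ :=
    le_trans (le_max_right _ _) (le_max_right _ _)
  obtain ⟨cs, hcs, hsmall⟩ := fin_small hNC (W₀ + 3 * C₀)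
  -- constants for the final bound
  -- case e large
  set E1 : ℝ := 1 / (64 * 5184000) with hE1 -- w 0 ≤ W/4
  set k1 : ℝ := l ^ 2 / 8 * cB ^ (3 / 4 : ℝ) with hk1
  have hk10 : 0 < k1 := by positivity
  set E2 : ℝ := (k1 / (2 * C₁)) ^ (4 / 3 : ℝ) with hE2
  have hE20 : 0 < E2 := by positivity
  -- A = M / l,  M = max (160 (C₀+1)) ((5184000 e W²)^(1/3))
  set E3 : ℝ := c₂ * (2 * C₁) * l ^ 2 / (144 * (160 * (C₀ + 1)) ^ 2) with hE3
  have hE30 : 0 < E3 := by positivity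
  set k4 : ℝ := c₂ * k1 * l ^ 2 / (144 * (5184000 : ℝ) ^ (2 / 3 : ℝ)) with hk4
  have hk40 : 0 < k4 := by positivity
  set E4 : ℝ := k4 ^ (12 / 29 : ℝ) with hE4
  have hE40 : 0 < E4 := by positivity
  set c' : ℝ := min (min E1 E2) (min E3 E4) with hc'
  have hc'0 : 0 < c' := lt_min (lt_min (by positivity) hE20) (lt_min hE30 hE40)
  set cf : ℝ := min cs (c' * (1 + 3 * C₀) ^ (-(19 / 29 : ℝ))) with hcf
  have hcf0 : 0 < cf := lt_min hcs (by positivity)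
  refine ⟨cf, hcf0, ?_⟩
  intro A B hD hq x y e hg he
  obtain ⟨w, t, n, hM⟩ := hMT A B hD hq x y e hg he
  have hMD : MData C₀ A B e w t n := hM
  obtain ⟨h1, h2, h3, h4⟩ := hM
  have htot := (fin_total hC₀ hD hMD).1
  set P := (4 * A ^ 3 + 27 * B ^ 2).natAbs.primeFactors with hP
  set V := insert 0 P with hV
  set W := ∑ v ∈ V, w v with hW
  have hH1 := fin_HE_pos A B hD
  have hHpos : 0 < HE A B := by linarith
  rw [abs_le] at htot
  have hHle1 : HE A B ^ (-(19 / 29 : ℝ)) ≤ 1 := by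
    rw [Real.rpow_neg hHpos.le]
    apply inv_le_one_of_one_le₀
    exact Real.one_le_rpow hH1 (by norm_num)
  by_cases hWs : W < W₀
  · -- small curves
    have hHs : HE A B ≤ W₀ + 3 * C₀ := by linarith [htot.1]
    have h5 := hsmall A B hD hHs x y e hg he
    calc cf * HE A B ^ (-(19 / 29 : ℝ)) ≤ cs * 1 :=
          mul_le_mul (min_le_left _ _) hHle1 (by positivity) hcs.le
      _ ≤ e := by linarith
  push Not at hWs
  have hW1 : 1 ≤ W := hW₀1.trans hWs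
  have hWpos : 0 < W := by linarith
  have h0P : (0 : ℕ) ∉ P := by simp [hP]
  -- e ≥ 0
  have he0 : 0 < e := by
    obtain ⟨c, hc, h⟩ := hNC A B hD
    exact lt_of_lt_of_le hc (h x y e hg he)
  -- reduction to W
  suffices hmain : c' * W ^ (-(19 / 29 : ℝ)) ≤ e by
    have h5 : (1 + 3 * C₀) ^ (-(19 / 29 : ℝ)) * HE A B ^ (-(19 / 29 : ℝ)) ≤ W ^ (-(19 / 29 : ℝ)) := by
      rw [← Real.mul_rpow (by linarith) hHpos.le]
      apply Real.rpow_le_rpow_of_nonpos hWpos _ (by norm_num)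
      nlinarith [htot.2]
    calc cf * HE A B ^ (-(19 / 29 : ℝ)) ≤ (c' * (1 + 3 * C₀) ^ (-(19 / 29 : ℝ))) * HE A B ^ (-(19 / 29 : ℝ)) :=
          mul_le_mul_of_nonneg_right (min_le_right _ _) (by positivity)
      _ = c' * ((1 + 3 * C₀) ^ (-(19 / 29 : ℝ)) * HE A B ^ (-(19 / 29 : ℝ))) := by ring
      _ ≤ c' * W ^ (-(19 / 29 : ℝ)) := mul_le_mul_of_nonneg_left h5 hc'0.le
      _ ≤ e := hmain
  have hWle1 : W ^ (-(19 / 29 : ℝ)) ≤ 1 := by
    rw [Real.rpow_neg hWpos.le]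
    apply inv_le_one_of_one_le₀
    exact Real.one_le_rpow hW1 (by norm_num)
  by_contra hcon
  push Not at hcon
  -- e < E_i * W^(-19/29)
  have hce : ∀ E : ℝ, c' ≤ E → e < E * W ^ (-(19 / 29 : ℝ)) := fun E hE =>
    lt_of_lt_of_le hcon (mul_le_mul_of_nonneg_right hE (by positivity))
  have hc1 : c' ≤ E1 := (min_le_left _ _).trans (min_le_left _ _)
  have hc2 : c' ≤ E2 := (min_le_left _ _).trans (min_le_right _ _)
  have hc3 : c' ≤ E3 := (min_le_right _ _).trans (min_le_left _ _)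
  have hc4 : c' ≤ E4 := (min_le_right _ _).trans (min_le_right _ _)
  -- M
  set M : ℝ := max (160 * (C₀ + 1)) ((5184000 * e * W ^ 2) ^ (1 / 3 : ℝ)) with hMdef
  have hM0 : 0 < M := lt_of_lt_of_le (by positivity) (le_max_left _ _)
  have hwM : ∀ v ∈ V, w v ≤ M := by
    intro v hv
    by_cases hb : w v ≤ 160 * (C₀ + 1)
    · exact hb.trans (le_max_left _ _)
    · push Not at hb
      have h5 := place_small hCK hC₀ hMD hv (by linarith) (by linarith)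
      refine le_trans ?_ (le_max_right _ _)
      have h6 : 0 ≤ w v := h1 v hv
      calc w v = ((w v) ^ 3) ^ (1 / 3 : ℝ) := by
            rw [← Real.rpow_natCast, ← Real.rpow_mul h6]; norm_num
        _ ≤ _ := Real.rpow_le_rpow (by positivity) h5 (by norm_num)
  -- w 0 ≤ W / 4
  have hw0 : w 0 ≤ W / 4 := by
    have h0V : (0 : ℕ) ∈ V := Finset.mem_insert_self _ _
    by_cases hb : w 0 ≤ 160 * (C₀ + 1)
    · linarith
    · push Not at hb
      have h5 := place_small hCK hC₀ hMD h0V (by linarith) (by linarith)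
      have h6 : e < E1 := by
        calc e < E1 * W ^ (-(19 / 29 : ℝ)) := hce E1 hc1
          _ ≤ E1 * 1 := mul_le_mul_of_nonneg_left hWle1 (by positivity)
          _ = E1 := mul_one _
      by_contra hcon2
      push Not at hcon2
      have h8 : (W / 4) ^ 3 < (w 0) ^ 3 := pow_lt_pow_left₀ hcon2 (by positivity) (by norm_num)
      have h9 : (W / 4) ^ 3 < 5184000 * E1 * W ^ 2 := by
        calc (W / 4) ^ 3 < (w 0) ^ 3 := h8
          _ ≤ 5184000 * e * W ^ 2 := h5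
          _ ≤ 5184000 * E1 * W ^ 2 := by gcongr
      rw [hE1] at h9
      have h10 : (W / 4) ^ 3 = W / 64 * W ^ 2 := by ring
      have h11 : 5184000 * (1 / (64 * 5184000)) * W ^ 2 = (1 / 64) * W ^ 2 := by ring
      rw [h10, h11] at h9
      have h12 : W / 64 < 1 / 64 := lt_of_mul_lt_mul_right h9 (by positivity)
      linarith
  have hsplit : W = w 0 + ∑ p ∈ P, w p := by rw [hW, hV, Finset.sum_insert h0P]
  have hWf : W / 2 ≤ ∑ p ∈ P, w p := by linarith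
  -- the primes with nonzero weight
  set Q := P.filter (fun p => w p ≠ 0) with hQ
  have hQsub : Q ⊆ P := Finset.filter_subset _ _
  have hsumQ : ∀ f : ℕ → ℝ, (∀ p ∈ P, w p = 0 → f p = 0) → ∑ p ∈ Q, f p = ∑ p ∈ P, f p := by
    intro f hf
    rw [hQ, Finset.sum_filter_of_ne]
    intro p hp hne hw
    exact hne (hf p hp hw)
  have hwQ : ∑ p ∈ Q, w p = ∑ p ∈ P, w p := hsumQ w (fun p _ h => h)
  have hPw : ∀ p ∈ P, 0 ≤ w p := fun p hp => h1 p (Finset.mem_insert_of_mem hp)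
  have hQn : ∀ p ∈ Q, 1 ≤ n p := fun p hp => (h2 p (hQsub hp)).1
  have hQl : ∀ p ∈ Q, n p * l ≤ w p := fun p hp =>
    (h2 p (hQsub hp)).2.2.1 (Finset.mem_filter.1 hp).2
  -- second moment
  set D₂ : ℝ := ∑ v ∈ V, w v ^ 2 with hD₂
  have hD₂P : ∑ p ∈ Q, w p ^ 2 ≤ D₂ := by
    apply Finset.sum_le_sum_of_subset_of_nonneg (hQsub.trans (Finset.subset_insert _ _))
    intro v _ _
    positivity
  have hD₂lo : l / 2 * W ≤ D₂ := by
    calc l / 2 * W = l * (W / 2) := by ring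
      _ ≤ l * ∑ p ∈ Q, w p := by rw [hwQ]; exact mul_le_mul_of_nonneg_left hWf hl2.le
      _ = ∑ p ∈ Q, l * w p := by rw [Finset.mul_sum]
      _ ≤ ∑ p ∈ Q, w p ^ 2 := by
          apply Finset.sum_le_sum
          intro p hp
          have h5 := hQl p hp
          have h6 : (1 : ℝ) ≤ n p := by exact_mod_cast hQn p hp
          have h7 : l ≤ w p := by nlinarith
          have h8 := hPw p (hQsub hp)
          nlinarith
      _ ≤ D₂ := hD₂P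
  have hD₂pos : 0 < D₂ := lt_of_lt_of_le (by positivity) hD₂lo
  -- rho
  set ρ : ℝ := D₂ / W ^ 2 with hρ
  have hρ0 : 0 < ρ := by positivity
  have hρlo : l / 2 / W ≤ ρ := by
    rw [hρ, div_le_div_iff₀ hWpos (by positivity)]
    nlinarith
  have hcondB : C₀ ≤ cB * (ρ ^ (2 / 3 : ℝ) * W) := by
    have h5 : (l / 2 / W) ^ (2 / 3 : ℝ) ≤ ρ ^ (2 / 3 : ℝ) :=
      Real.rpow_le_rpow (by positivity) hρlo (by norm_num)
    have h6 : (l / 2 / W) ^ (2 / 3 : ℝ) * W = (l / 2) ^ (2 / 3 : ℝ) * W ^ (1 / 3 : ℝ) := by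
      rw [Real.div_rpow (by positivity) hWpos.le]
      have h7 : W = W ^ (2 / 3 : ℝ) * W ^ (1 / 3 : ℝ) := by
        rw [← Real.rpow_add hWpos]; norm_num
      have h8 : W ^ (2 / 3 : ℝ) ≠ 0 := by positivity
      rw [div_mul_eq_mul_div, div_eq_iff h8]
      nth_rewrite 1 [h7]
      ring
    have h9 : C₀ / (cB * (l / 2) ^ (2 / 3 : ℝ)) ≤ W ^ (1 / 3 : ℝ) := by
      have h10 : 0 ≤ C₀ / (cB * (l / 2) ^ (2 / 3 : ℝ)) := by positivity
      calc C₀ / (cB * (l / 2) ^ (2 / 3 : ℝ)) =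
          ((C₀ / (cB * (l / 2) ^ (2 / 3 : ℝ))) ^ 3) ^ (1 / 3 : ℝ) := by
            rw [← Real.rpow_natCast, ← Real.rpow_mul h10]; norm_num
        _ ≤ W ^ (1 / 3 : ℝ) := Real.rpow_le_rpow (by positivity) (hW₀3.trans hWs) (by norm_num)
    rw [div_le_iff₀ (by positivity)] at h9
    calc C₀ ≤ W ^ (1 / 3 : ℝ) * (cB * (l / 2) ^ (2 / 3 : ℝ)) := h9
      _ = cB * ((l / 2) ^ (2 / 3 : ℝ) * W ^ (1 / 3 : ℝ)) := by ring
      _ = cB * ((l / 2 / W) ^ (2 / 3 : ℝ) * W) := by rw [h6]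
      _ ≤ cB * (ρ ^ (2 / 3 : ℝ) * W) := by gcongr
  have hBB := hB hC₀ hMD ρ hρ0 (by rw [hρ, ← hV, ← hW, div_mul_cancel₀ _ (by positivity)]) hWpos hcondB
  rw [← hV, ← hW] at hBB
  -- G
  set G : ℝ := ∑ p ∈ Q, w p / (n p : ℝ) ^ 2 with hG
  have hGlo : l ^ 2 / 8 * (1 / (W * ρ ^ 2)) ≤ G := by
    have h5 := holder3 (P := Q) (w := w) (n := n) (fun p hp => hPw p (hQsub hp)) hQn
    have h6 : ∑ p ∈ Q, w p * n p ≤ D₂ / l := by
      rw [le_div_iff₀ hl2, Finset.sum_mul]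
      refine le_trans (Finset.sum_le_sum ?_) hD₂P
      intro p hp
      have h7 := hQl p hp
      have h8 := hPw p (hQsub hp)
      nlinarith
    have h7 : 0 ≤ ∑ p ∈ Q, w p * n p :=
      Finset.sum_nonneg (fun p hp => mul_nonneg (hPw p (hQsub hp)) (Nat.cast_nonneg _))
    have hG0 : 0 ≤ G := Finset.sum_nonneg (fun p hp => div_nonneg (hPw p (hQsub hp)) (by positivity))
    have h8 : (W / 2) ^ 3 ≤ (D₂ / l) ^ 2 * G := by
      calc (W / 2) ^ 3 ≤ (∑ p ∈ Q, w p) ^ 3 := by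
            rw [hwQ]; exact pow_le_pow_left₀ (by positivity) hWf 3
        _ ≤ (∑ p ∈ Q, w p * n p) ^ 2 * G := h5
        _ ≤ (D₂ / l) ^ 2 * G := by gcongr
    have h9 : D₂ = ρ * W ^ 2 := by rw [hρ]; field_simp
    rw [h9] at h8
    have h10 : (ρ * W ^ 2 / l) ^ 2 * G = ρ ^ 2 * W ^ 4 / l ^ 2 * G := by ring
    rw [h10] at h8
    have h11 : l ^ 2 / 8 * (1 / (W * ρ ^ 2)) = (W / 2) ^ 3 * (l ^ 2 / (ρ ^ 2 * W ^ 4)) := by
      field_simp
      norm_num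
    rw [h11]
    calc (W / 2) ^ 3 * (l ^ 2 / (ρ ^ 2 * W ^ 4)) ≤ (ρ ^ 2 * W ^ 4 / l ^ 2 * G) * (l ^ 2 / (ρ ^ 2 * W ^ 4)) := by
          gcongr
      _ = G := by field_simp
  have hGpos : 0 < G := lt_of_lt_of_le (by positivity) hGlo
  -- G ≥ k1 W^(-1/4) e^(-3/4)
  have hG2 : k1 * (W ^ (-(1 / 4) : ℝ) * e ^ (-(3 / 4) : ℝ)) ≤ G := by
    refine le_trans ?_ hGlo
    -- ρ² ≤ (e / (cB W))^(3/4)
    have h5 : ρ ^ (8 / 3 : ℝ) ≤ e / (cB * W) := by
      rw [le_div_iff₀ (by positivity)]; linarith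
    have h6 : ρ ^ 2 ≤ (e / (cB * W)) ^ (3 / 4 : ℝ) := by
      calc ρ ^ 2 = (ρ ^ (8 / 3 : ℝ)) ^ (3 / 4 : ℝ) := by
            rw [← Real.rpow_mul hρ0.le, ← Real.rpow_natCast]; norm_num
        _ ≤ _ := Real.rpow_le_rpow (by positivity) h5 (by norm_num)
    have h7 : (e / (cB * W)) ^ (3 / 4 : ℝ) = e ^ (3 / 4 : ℝ) / (cB ^ (3 / 4 : ℝ) * W ^ (3 / 4 : ℝ)) := by
      rw [Real.div_rpow he0.le (by positivity), Real.mul_rpow hcB.le hWpos.le]
    rw [h7] at h6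
    have h8 : W ^ (-(1 / 4) : ℝ) = W ^ (3 / 4 : ℝ) / W := by
      rw [eq_div_iff hWpos.ne']
      nth_rewrite 2 [← Real.rpow_one W]
      rw [← Real.rpow_add hWpos]; norm_num
    have h9 : e ^ (-(3 / 4) : ℝ) = 1 / e ^ (3 / 4 : ℝ) := by
      rw [Real.rpow_neg he0.le, one_div]
    rw [h8, h9, hk1]
    have h10 : 0 < e ^ (3 / 4 : ℝ) := by positivity
    have h11 : 0 < cB ^ (3 / 4 : ℝ) := by positivity
    have h12 : 0 < W ^ (3 / 4 : ℝ) := by positivity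
    have h13 : cB ^ (3 / 4 : ℝ) * (W ^ (3 / 4 : ℝ) / W * (1 / e ^ (3 / 4 : ℝ))) ≤ 1 / (W * ρ ^ 2) := by
      rw [le_div_iff₀ (by positivity)]
      calc cB ^ (3 / 4 : ℝ) * (W ^ (3 / 4 : ℝ) / W * (1 / e ^ (3 / 4 : ℝ))) * (W * ρ ^ 2)
          ≤ cB ^ (3 / 4 : ℝ) * (W ^ (3 / 4 : ℝ) / W * (1 / e ^ (3 / 4 : ℝ))) *
            (W * (e ^ (3 / 4 : ℝ) / (cB ^ (3 / 4 : ℝ) * W ^ (3 / 4 : ℝ)))) := by gcongr
        _ = 1 := by field_simp
    calc l ^ 2 / 8 * cB ^ (3 / 4 : ℝ) * (W ^ (3 / 4 : ℝ) / W * (1 / e ^ (3 / 4 : ℝ)))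
        = l ^ 2 / 8 * (cB ^ (3 / 4 : ℝ) * (W ^ (3 / 4 : ℝ) / W * (1 / e ^ (3 / 4 : ℝ)))) := by ring
      _ ≤ l ^ 2 / 8 * (1 / (W * ρ ^ 2)) := mul_le_mul_of_nonneg_left h13 (by positivity)
  -- G ≥ 2 C₁
  have hG3 : 2 * C₁ ≤ G := by
    refine le_trans ?_ hG2
    have h5 : e ≤ E2 * W ^ (-(1 / 3) : ℝ) := by
      refine (hce E2 hc2).le.trans ?_
      apply mul_le_mul_of_nonneg_left _ hE20.le
      exact Real.rpow_le_rpow_of_exponent_le hW1 (by norm_num)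
    have h6 : (E2 * W ^ (-(1 / 3) : ℝ)) ^ (-(3 / 4) : ℝ) ≤ e ^ (-(3 / 4) : ℝ) :=
      Real.rpow_le_rpow_of_nonpos he0 h5 (by norm_num)
    have h7 : (E2 * W ^ (-(1 / 3) : ℝ)) ^ (-(3 / 4) : ℝ) = (2 * C₁ / k1) * W ^ (1 / 4 : ℝ) := by
      rw [Real.mul_rpow hE20.le (by positivity), ← Real.rpow_mul hWpos.le, hE2,
        ← Real.rpow_mul (by positivity)]
      have h8 : ((4 : ℝ) / 3 * -(3 / 4)) = -1 := by norm_num
      have h9 : (-(1 / 3 : ℝ) * -(3 / 4)) = 1 / 4 := by norm_num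
      rw [h8, h9, Real.rpow_neg_one, inv_div]
    rw [h7] at h6
    calc 2 * C₁ = k1 * (W ^ (-(1 / 4) : ℝ) * ((2 * C₁ / k1) * W ^ (1 / 4 : ℝ))) := by
          have h8 : W ^ (-(1 / 4) : ℝ) * W ^ (1 / 4 : ℝ) = 1 := by
            rw [← Real.rpow_add hWpos]; norm_num
          calc 2 * C₁ = 2 * C₁ * 1 := by ring
            _ = 2 * C₁ * (W ^ (-(1 / 4) : ℝ) * W ^ (1 / 4 : ℝ)) := by rw [h8]
            _ = _ := by field_simp
      _ ≤ k1 * (W ^ (-(1 / 4) : ℝ) * e ^ (-(3 / 4) : ℝ)) := by gcongr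
  -- apply T2 with A' = M / l
  set A' : ℝ := M / l with hA'
  have hA'1 : 1 ≤ A' := by
    rw [hA', le_div_iff₀ hl2]
    have : 160 * (C₀ + 1) ≤ M := le_max_left _ _
    linarith
  have h0Q : (0 : ℕ) ∉ Q := fun h => h0P (hQsub h)
  have hfin := hT2 Q w t n 0 (144 * e) A' h0Q
    (by
      intro v hv
      rcases Finset.mem_insert.1 hv with h | h
      · rw [h]; exact h1 0 (Finset.mem_insert_self _ _)
      · exact hPw v (hQsub h))
    (by positivity) hA'1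
    (by
      intro j hj
      have h5 := h4 j hj
      have h6 : ∑ v ∈ insert 0 Q, w v * B2 (j * t v) = ∑ v ∈ V, w v * B2 (j * t v) := by
        rw [hV, Finset.sum_insert h0P, Finset.sum_insert h0Q,
          hsumQ (fun v => w v * B2 (j * t v)) (fun p _ h => by simp only [h, zero_mul])]
      rw [h6]
      linarith)
    (by
      intro v hv
      refine ⟨hQn v hv, ?_, (h2 v (hQsub hv)).2.1⟩
      rw [hA', le_div_iff₀ hl2]
      exact (hQl v hv).trans (hwM v (Finset.mem_insert_of_mem (hQsub hv))))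
    (by
      have h5 : w 0 / A' ≤ 1 := by
        rw [div_le_one (by linarith)]
        have h6 := hwM 0 (Finset.mem_insert_self _ _)
        have h7 : M ≤ A' := by
          rw [hA', le_div_iff₀ hl2]
          nlinarith
        linarith
      calc C₁ * (1 + w 0 / A') ≤ C₁ * 2 := by gcongr; linarith
        _ = 2 * C₁ := by ring
        _ ≤ G := hG3)
  rw [← hG] at hfin
  -- two cases for M
  rcases le_total (160 * (C₀ + 1)) ((5184000 * e * W ^ 2) ^ (1 / 3 : ℝ)) with hcase | hcase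
  · -- main case
    have hMe : M = (5184000 * e * W ^ 2) ^ (1 / 3 : ℝ) := max_eq_right hcase
    have h5 : c₂ * (k1 * (W ^ (-(1 / 4) : ℝ) * e ^ (-(3 / 4) : ℝ))) ≤ 144 * e * A' ^ 2 :=
      (mul_le_mul_of_nonneg_left hG2 hc₂.le).trans hfin
    have hM2 : M ^ 2 = (5184000 : ℝ) ^ (2 / 3 : ℝ) * e ^ (2 / 3 : ℝ) * W ^ (4 / 3 : ℝ) := by
      rw [hMe, ← Real.rpow_natCast, ← Real.rpow_mul (by positivity),
        Real.mul_rpow (by positivity) (by positivity), Real.mul_rpow (by positivity) (by positivity),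
        ← Real.rpow_natCast W 2, ← Real.rpow_mul hWpos.le]
      norm_num
    have h6 : 144 * e * A' ^ 2 = 144 * (5184000 : ℝ) ^ (2 / 3 : ℝ) / l ^ 2 *
        (e ^ (5 / 3 : ℝ) * W ^ (4 / 3 : ℝ)) := by
      rw [hA', div_pow, hM2]
      have h7 : e ^ (5 / 3 : ℝ) = e * e ^ (2 / 3 : ℝ) := by
        nth_rewrite 2 [← Real.rpow_one e]
        rw [← Real.rpow_add he0]; norm_num
      rw [h7]
      ring
    rw [h6] at h5
    -- k4 W^(-19/12) ≤ e^(29/12)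
    have h7 : k4 * W ^ (-(19 / 12) : ℝ) ≤ e ^ (29 / 12 : ℝ) := by
      have h8 : W ^ (-(19 / 12) : ℝ) = W ^ (-(1 / 4) : ℝ) * W ^ (-(4 / 3) : ℝ) := by
        rw [← Real.rpow_add hWpos]; norm_num
      have h9 : e ^ (29 / 12 : ℝ) = e ^ (5 / 3 : ℝ) * e ^ (3 / 4 : ℝ) := by
        rw [← Real.rpow_add he0]; norm_num
      have h10 : e ^ (-(3 / 4) : ℝ) * e ^ (3 / 4 : ℝ) = 1 := by
        rw [← Real.rpow_add he0]; norm_num
      have h11 : W ^ (4 / 3 : ℝ) * W ^ (-(4 / 3) : ℝ) = 1 := by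
        rw [← Real.rpow_add hWpos]; norm_num
      set S : ℝ := (5184000 : ℝ) ^ (2 / 3 : ℝ) with hS
      have hS0 : 0 < S := by positivity
      calc k4 * W ^ (-(19 / 12) : ℝ) = (c₂ * (k1 * (W ^ (-(1 / 4) : ℝ) * (e ^ (-(3 / 4) : ℝ) * e ^ (3 / 4 : ℝ))))) *
            (l ^ 2 / (144 * S)) * W ^ (-(4 / 3) : ℝ) := by
            rw [h10, h8, hk4]; ring
        _ = (c₂ * (k1 * (W ^ (-(1 / 4) : ℝ) * e ^ (-(3 / 4) : ℝ)))) *
            ((l ^ 2 / (144 * S)) * W ^ (-(4 / 3) : ℝ) * e ^ (3 / 4 : ℝ)) := by ring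
        _ ≤ (144 * S / l ^ 2 * (e ^ (5 / 3 : ℝ) * W ^ (4 / 3 : ℝ))) *
            ((l ^ 2 / (144 * S)) * W ^ (-(4 / 3) : ℝ) * e ^ (3 / 4 : ℝ)) := by gcongr
        _ = (e ^ (5 / 3 : ℝ) * e ^ (3 / 4 : ℝ)) * (W ^ (4 / 3 : ℝ) * W ^ (-(4 / 3) : ℝ)) *
            ((144 * S / l ^ 2) * (l ^ 2 / (144 * S))) := by ring
        _ = e ^ (29 / 12 : ℝ) := by
            rw [h11, ← h9]
            have : (144 * S / l ^ 2) * (l ^ 2 / (144 * S)) = 1 := by field_simp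
            rw [this]; ring
    have h8 : E4 * W ^ (-(19 / 29) : ℝ) ≤ e := by
      calc E4 * W ^ (-(19 / 29) : ℝ) = (k4 * W ^ (-(19 / 12) : ℝ)) ^ (12 / 29 : ℝ) := by
            rw [Real.mul_rpow hk40.le (by positivity), ← Real.rpow_mul hWpos.le, hE4]
            norm_num
        _ ≤ (e ^ (29 / 12 : ℝ)) ^ (12 / 29 : ℝ) := Real.rpow_le_rpow (by positivity) h7 (by norm_num)
        _ = e := by rw [← Real.rpow_mul he0.le]; norm_num
    have h9 := hce E4 hc4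
    linarith
  · -- M bounded: e is bounded below
    have hMe : M = 160 * (C₀ + 1) := max_eq_left hcase
    have h5 : c₂ * (2 * C₁) ≤ 144 * e * A' ^ 2 :=
      (mul_le_mul_of_nonneg_left hG3 hc₂.le).trans hfin
    rw [hA', hMe, div_pow] at h5
    have h6 : E3 ≤ e := by
      rw [hE3, div_le_iff₀ (by positivity)]
      have h7 : 144 * e * ((160 * (C₀ + 1)) ^ 2 / l ^ 2) = (e * (144 * (160 * (C₀ + 1)) ^ 2)) / l ^ 2 := by
        ring
      rw [h7, le_div_iff₀ (by positivity)] at h5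
      linarith
    have h7 := hce E3 hc3
    have h8 : E3 * W ^ (-(19 / 29 : ℝ)) ≤ E3 * 1 := mul_le_mul_of_nonneg_left hWle1 hE30.le
    linarith

end Pool.Agent.Helper54.LS
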