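import Pool.Agent.Helper54.LS.K3

namespace Pool.Agent.Helper54.LS

open Real Filter Topology Pool.Agent.Helper42.LS

lemma wt_zero (b : ℝ) : wt b 0 = 0 := by
  unfold wt; simp

lemma summable_wt_B2 (b α : ℝ) : Summable (fun j : ℕ => wt b j * B2 (j * α)) :=
  summable_wt_mul b _ (fun j => (B2_abs_le _).trans (by norm_num))

/-- averaging the basic inequality against the weights -/
lemma avg_ineq (b : ℝ) (S : Finset ℕ) (w t : ℕ → ℝ) (h C : ℝ)
    (H : ∀ j : ℕ, 1 ≤ j → ∑ v ∈ S, w v * B2 (j * t v) - C ≤ h * (j : ℝ) ^ 2) :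
    ∑ v ∈ S, w v * ∑' j : ℕ, wt b j * B2 (j * t v) ≤ h * VV b + C * WW b := by
  have h1 : ∑ v ∈ S, w v * ∑' j : ℕ, wt b j * B2 (j * t v) =
      ∑' j : ℕ, wt b j * ∑ v ∈ S, w v * B2 (j * t v) := by
    have h2 : ∀ v ∈ S, Summable (fun j : ℕ => w v * (wt b j * B2 (j * t v))) :=
      fun v _ => (summable_wt_B2 b (t v)).mul_left _
    have h3 : ∀ v ∈ S, w v * ∑' j : ℕ, wt b j * B2 (j * t v) =
        ∑' j : ℕ, w v * (wt b j * B2 (j * t v)) := fun v _ => tsum_mul_left.symm
    rw [Finset.sum_congr rfl h3, ← Summable.tsum_finsetSum h2]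
    apply tsum_congr
    intro j
    rw [Finset.mul_sum]
    apply Finset.sum_congr rfl
    intro v _
    ring
  rw [h1]
  have h4 : Summable (fun j : ℕ => wt b j * ∑ v ∈ S, w v * B2 (j * t v)) := by
    have h2 : Summable (fun j : ℕ => ∑ v ∈ S, w v * (wt b j * B2 (j * t v))) :=
      summable_sum (fun v _ => (summable_wt_B2 b (t v)).mul_left _)
    refine h2.congr (fun j => ?_)
    rw [Finset.mul_sum]
    apply Finset.sum_congr rfl
    intro v _
    ring
  have h5 : Summable (fun j : ℕ => h * (wt b j * (j : ℝ) ^ 2) + C * wt b j) :=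
    ((summable_wt_sq b).mul_left h).add ((summable_wt b).mul_left C)
  calc ∑' j : ℕ, wt b j * ∑ v ∈ S, w v * B2 (j * t v)
      ≤ ∑' j : ℕ, (h * (wt b j * (j : ℝ) ^ 2) + C * wt b j) := by
        apply Summable.tsum_le_tsum _ h4 h5
        intro j
        rcases Nat.eq_zero_or_pos j with hj | hj
        · subst hj
          simp [wt_zero]
        · have h6 := H j hj
          have h7 := wt_nonneg b j
          nlinarith
    _ = h * VV b + C * WW b := by
        rw [Summable.tsum_add ((summable_wt_sq b).mul_left h) ((summable_wt b).mul_left C),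
          tsum_mul_left, tsum_mul_left]
        rfl

theorem st_T2 (hK1 : ST_K1) (hK2 : ST_K2) (hK4 : ST_K4) : ST_T2 := by
  have hK3 := st_K3 hK1
  intro C hC
  obtain ⟨c₁, c₂, hc₁, hc₂, hK2⟩ := hK2
  obtain ⟨κ, C', hκ, hκ1, hC', hK4⟩ := hK4
  refine ⟨c₁ * κ ^ 2 / (432 * c₂), 12 * (C + C'), by positivity, by positivity, ?_⟩
  intro V w t n v₀ h A hv₀ hw hh hA H hn hG
  have hA0 : (0 : ℝ) < A := by linarith
  set b : ℝ := 1 / (6 * A) with hb
  have hb0 : 0 < b := by positivity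
  have hb6 : b ≤ 1 / 6 := by
    rw [hb]
    apply one_div_le_one_div_of_le (by norm_num)
    linarith
  obtain ⟨b', hb', hneg⟩ := hK4 b hb0 hb6 (t v₀)
  have hκb : κ * b ≤ b' := by
    rcases hb' with h1 | h1 <;> rw [h1]
    nlinarith
  have hb'b : b' ≤ b := by
    rcases hb' with h1 | h1 <;> rw [h1]
    nlinarith
  have hb'0 : 0 < b' := lt_of_lt_of_le (by positivity) hκb
  have hb'6 : b' ≤ 1 / 6 := hb'b.trans hb6
  obtain ⟨-, -, hW, hV⟩ := hK2 b' hb'0 hb'6
  set G : ℝ := ∑ v ∈ V, w v / (n v : ℝ) ^ 2 with hGdef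
  have hWpos : 0 < WW b' := lt_of_lt_of_le (by positivity) hW
  have havg := avg_ineq b' (insert v₀ V) w t h C H
  rw [Finset.sum_insert hv₀] at havg
  have hlow : WW b' * (G / 6) ≤ ∑ v ∈ V, w v * ∑' j : ℕ, wt b' j * B2 (j * t v) := by
    rw [hGdef, Finset.sum_div, Finset.mul_sum]
    apply Finset.sum_le_sum
    intro v hv
    obtain ⟨h1, h2, h3⟩ := hn v hv
    have h4 := hK3 b' hb'0 hb'6 (n v) h1 (by
      have h5 : 3 * b' * (n v : ℝ) ≤ 3 * b * A := by
        have : (0 : ℝ) ≤ n v := by positivity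
        nlinarith
      have h6 : 3 * b * A = 1 / 2 := by rw [hb]; field_simp; norm_num
      linarith) (t v) h3
    have h5 := hw v (Finset.mem_insert_of_mem hv)
    calc WW b' * (w v / (n v : ℝ) ^ 2 / 6) = w v * (WW b' / (6 * (n v : ℝ) ^ 2)) := by
          have : (n v : ℝ) ≠ 0 := by positivity
          field_simp
      _ ≤ _ := mul_le_mul_of_nonneg_left h4 h5
  have hw0 := hw v₀ (Finset.mem_insert_self _ _)
  have h1 : -(C' * b * WW b') * w v₀ ≤ w v₀ * ∑' j : ℕ, wt b' j * B2 (j * t v₀) := by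
    have := mul_le_mul_of_nonneg_left hneg hw0
    linarith
  have h2 : WW b' * (G / 12) ≤ h * VV b' := by
    have h3 : C' * b * w v₀ + C ≤ G / 12 := by
      have h4 : C' * b * w v₀ ≤ C' * (w v₀ / A) := by
        rw [hb]
        have : 1 / (6 * A) * w v₀ ≤ w v₀ / A := by
          rw [div_mul_eq_mul_div, div_le_div_iff₀ (by positivity) hA0]
          nlinarith
        calc C' * (1 / (6 * A)) * w v₀ = C' * (1 / (6 * A) * w v₀) := by ring
          _ ≤ _ := mul_le_mul_of_nonneg_left this hC'.le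
      have h5 : 0 ≤ w v₀ / A := by positivity
      nlinarith
    nlinarith
  have h3 : c₁ * b' ^ 3 * (G / 12) ≤ h * (c₂ * b') := by
    have hG0 : 0 ≤ G := by
      apply Finset.sum_nonneg
      intro v hv
      have := hw v (Finset.mem_insert_of_mem hv)
      positivity
    calc c₁ * b' ^ 3 * (G / 12) ≤ WW b' * (G / 12) := by gcongr
      _ ≤ h * VV b' := h2
      _ ≤ h * (c₂ * b') := by gcongr
  have h4 : c₁ * b' ^ 2 * (G / 12) ≤ h * c₂ := by
    have h5 : b' * (c₁ * b' ^ 2 * (G / 12)) ≤ b' * (h * c₂) := by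
      calc b' * (c₁ * b' ^ 2 * (G / 12)) = c₁ * b' ^ 3 * (G / 12) := by ring
        _ ≤ h * (c₂ * b') := h3
        _ = b' * (h * c₂) := by ring
    exact le_of_mul_le_mul_left h5 hb'0
  have h5 : c₁ * (κ * b) ^ 2 * (G / 12) ≤ h * c₂ := by
    refine le_trans ?_ h4
    have hG0 : 0 ≤ G := by
      apply Finset.sum_nonneg
      intro v hv
      have := hw v (Finset.mem_insert_of_mem hv)
      positivity
    have : (κ * b) ^ 2 ≤ b' ^ 2 := pow_le_pow_left₀ (by positivity) hκb 2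
    gcongr
  calc c₁ * κ ^ 2 / (432 * c₂) * G = c₁ * (κ * b) ^ 2 * (G / 12) * (A ^ 2 / c₂) := by
        rw [hb]
        field_simp
        ring
    _ ≤ h * c₂ * (A ^ 2 / c₂) := by gcongr
    _ = h * A ^ 2 := by field_simp

end Pool.Agent.Helper54.LS
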